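import Mathlib

/-!
# Holomorphic functions on open subsets of a complex normed space

Cauchy estimate for the Fréchet derivative, holomorphic dependence of integrals on parameters,
`DifferentiableOn ℂ f Ω → ContDiffOn ℂ n f Ω` (finite dimensional domain).
-/

namespace Pool.Agent.Helper38.DO

open Set Filter Topology Metric MeasureTheory

variable {E : Type*} [NormedAddCommGroup E] [NormedSpace ℂ E]

/-- restriction to a complex line -/
theorem sev_line {f : E → ℂ} {Ω : Set E} (hΩ : IsOpen Ω) (hf : DifferentiableOn ℂ f Ω) (x v : E)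
    (t : ℂ) (ht : x + t • v ∈ Ω) :
    HasDerivAt (fun t : ℂ => f (x + t • v)) (fderiv ℂ f (x + t • v) v) t := by
  have h1 : HasFDerivAt f (fderiv ℂ f (x + t • v)) (x + t • v) :=
    (hf.differentiableAt (hΩ.mem_nhds ht)).hasFDerivAt
  have h2 : HasDerivAt (fun t : ℂ => x + t • v) v t := by
    simpa using ((hasDerivAt_id t).smul_const v).const_add x
  exact h1.comp_hasDerivAt t h2

/-- Cauchy estimate for the Fréchet derivative -/
theorem sev_bound {f : E → ℂ} {Ω : Set E} (hΩ : IsOpen Ω) (hf : DifferentiableOn ℂ f Ω) {x : E}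
    {ρ M : ℝ} (hρ : 0 < ρ) (hb : closedBall x ρ ⊆ Ω) (hM : ∀ y ∈ closedBall x ρ, ‖f y‖ ≤ M) :
    ‖fderiv ℂ f x‖ ≤ M / ρ := by
  have hM0 : 0 ≤ M := (norm_nonneg _).trans (hM x (mem_closedBall_self hρ.le))
  refine ContinuousLinearMap.opNorm_le_bound _ (by positivity) fun v => ?_
  rcases eq_or_ne v 0 with rfl | hv
  · simp
  have hv' : 0 < ‖v‖ := norm_pos_iff.2 hv
  have hmem : ∀ t : ℂ, ‖t‖ ≤ ρ / ‖v‖ → x + t • v ∈ closedBall x ρ := by
    intro t ht
    rw [mem_closedBall, dist_eq_norm, add_sub_cancel_left, norm_smul]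
    rwa [le_div_iff₀ hv'] at ht
  have hgd : ∀ t : ℂ, ‖t‖ ≤ ρ / ‖v‖ →
      HasDerivAt (fun t : ℂ => f (x + t • v)) (fderiv ℂ f (x + t • v) v) t :=
    fun t ht => sev_line hΩ hf x v t (hb (hmem t ht))
  have h3 : ‖deriv (fun t : ℂ => f (x + t • v)) 0‖ ≤ M / (ρ / ‖v‖) := by
    refine Complex.norm_deriv_le_of_forall_mem_sphere_norm_le (by positivity) ?_ ?_
    · apply DifferentiableOn.diffContOnCl
      intro t ht
      rw [closure_ball _ (by positivity)] at ht
      exact (hgd t (by simpa using ht)).differentiableAt.differentiableWithinAt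
    · intro t ht
      exact hM _ (hmem t (by rw [mem_sphere_zero_iff_norm] at ht; exact ht.le))
  have h4 : deriv (fun t : ℂ => f (x + t • v)) 0 = fderiv ℂ f x v := by
    have := (hgd 0 (by simp; positivity)).deriv
    simpa using this
  rw [h4] at h3
  calc _ ≤ _ := h3
    _ = M / ρ * ‖v‖ := by field_simp

theorem sev_loc {f : E → ℂ} {Ω : Set E} (hΩ : IsOpen Ω) (hf : DifferentiableOn ℂ f Ω) {x : E}
    (hx : x ∈ Ω) : ∃ R : ℝ, 0 < R ∧ ∃ M : ℝ, closedBall x R ⊆ Ω ∧ ∀ y ∈ closedBall x R, ‖f y‖ ≤ M := by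
  have h1 : ContinuousAt f x := (hf.differentiableAt (hΩ.mem_nhds hx)).continuousAt
  have h2 : ∀ᶠ y in 𝓝 x, ‖f y‖ < ‖f x‖ + 1 :=
    h1.norm.eventually_lt continuousAt_const (by simp)
  have h3 : ∀ᶠ y in 𝓝 x, y ∈ Ω := hΩ.mem_nhds hx
  obtain ⟨R, hR, h4⟩ := Metric.nhds_basis_closedBall.eventually_iff.1 (h2.and h3)
  exact ⟨R, hR, ‖f x‖ + 1, fun y hy => (h4 hy).2, fun y hy => (h4 hy).1.le⟩

/-- a holomorphic function is `C^1` -/
theorem sev_continuousOn_fderiv {f : E → ℂ} {Ω : Set E} (hΩ : IsOpen Ω)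
    (hf : DifferentiableOn ℂ f Ω) : ContinuousOn (fderiv ℂ f) Ω := by
  intro x hx
  refine ContinuousAt.continuousWithinAt ?_
  obtain ⟨R, hR, M, hsub, hM⟩ := sev_loc hΩ hf hx
  have hM0 : 0 ≤ M := (norm_nonneg _).trans (hM x (mem_closedBall_self hR.le))
  obtain ⟨ρ, hρ⟩ : ∃ ρ : ℝ, ρ = R / 3 := ⟨_, rfl⟩
  have hρ0 : 0 < ρ := by rw [hρ]; positivity
  have hR3 : R = 3 * ρ := by rw [hρ]; ring
  have hcb : ∀ y ∈ closedBall x (2 * ρ), closedBall y ρ ⊆ closedBall x R := by
    intro y hy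
    apply closedBall_subset_closedBall'
    rw [mem_closedBall] at hy
    linarith
  have hb1 : ∀ y ∈ closedBall x (2 * ρ), ‖fderiv ℂ f y‖ ≤ M / ρ := fun y hy =>
    sev_bound hΩ hf hρ0 ((hcb y hy).trans hsub) fun z hz => hM z (hcb y hy hz)
  have hin : ∀ y ∈ closedBall x (2 * ρ), y ∈ Ω := fun y hy =>
    hsub (closedBall_subset_closedBall (by linarith) hy)
  have hlip : ∀ y ∈ closedBall x (2 * ρ), ∀ z ∈ closedBall x (2 * ρ),
      ‖f z - f y‖ ≤ M / ρ * ‖z - y‖ := by
    intro y hy z hz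
    let _ : NormedSpace ℝ E := NormedSpace.restrictScalars ℝ ℂ E
    exact (convex_closedBall x (2 * ρ)).norm_image_sub_le_of_norm_fderiv_le (𝕜 := ℂ)
      (fun w hw => hf.differentiableAt (hΩ.mem_nhds (hin w hw))) hb1 hy hz
  have hlip2 : ∀ h : E, ‖h‖ ≤ ρ → ‖fderiv ℂ f (x + h) - fderiv ℂ f x‖ ≤ (M / ρ * ‖h‖) / ρ := by
    intro h hh
    have hop : IsOpen {z : E | z ∈ Ω ∧ z + h ∈ Ω} :=
      hΩ.inter (hΩ.preimage (continuous_id.add continuous_const))
    have hd : DifferentiableOn ℂ (fun z => f (z + h) - f z) {z : E | z ∈ Ω ∧ z + h ∈ Ω} := by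
      intro z hz
      refine DifferentiableAt.differentiableWithinAt (DifferentiableAt.sub ?_
        (hf.differentiableAt (hΩ.mem_nhds hz.1)))
      exact (hf.differentiableAt (hΩ.mem_nhds hz.2)).comp z
        (differentiableAt_id.add (differentiableAt_const h))
    have hm1 : ∀ z ∈ closedBall x ρ, z ∈ closedBall x (2 * ρ) ∧ z + h ∈ closedBall x (2 * ρ) := by
      intro z hz
      rw [mem_closedBall, dist_eq_norm] at hz
      refine ⟨?_, ?_⟩
      · rw [mem_closedBall, dist_eq_norm]; linarith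
      · rw [mem_closedBall, dist_eq_norm]
        calc ‖z + h - x‖ = ‖(z - x) + h‖ := by congr 1; abel
          _ ≤ ‖z - x‖ + ‖h‖ := norm_add_le _ _
          _ ≤ 2 * ρ := by linarith
    have h5 := sev_bound hop hd (x := x) (ρ := ρ) (M := M / ρ * ‖h‖) hρ0
      (fun z hz => ⟨hin z (hm1 z hz).1, hin _ (hm1 z hz).2⟩)
      (fun z hz => by simpa using hlip z (hm1 z hz).1 (z + h) (hm1 z hz).2)
    have hx1 := hm1 x (mem_closedBall_self hρ0.le)
    have h6 : HasFDerivAt (fun z => f (z + h) - f z) (fderiv ℂ f (x + h) - fderiv ℂ f x) x := by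
      refine HasFDerivAt.sub ?_ (hf.differentiableAt (hΩ.mem_nhds hx)).hasFDerivAt
      have h7 := (hf.differentiableAt (hΩ.mem_nhds (hin _ hx1.2))).hasFDerivAt
      exact (hasFDerivAt_comp_add_right h).2 h7
    rwa [h6.fderiv] at h5
  rw [ContinuousAt, tendsto_iff_norm_sub_tendsto_zero]
  have h8 : Tendsto (fun y : E => (M / ρ * ‖y - x‖) / ρ) (𝓝 x) (𝓝 0) := by
    have : Continuous (fun y : E => (M / ρ * ‖y - x‖) / ρ) := by fun_prop
    simpa using this.tendsto x
  refine squeeze_zero' (Eventually.of_forall fun _ => norm_nonneg _) ?_ h8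
  filter_upwards [closedBall_mem_nhds x hρ0] with y hy
  rw [mem_closedBall, dist_eq_norm] at hy
  simpa using hlip2 (y - x) hy

/-- integrals of functions depending holomorphically on a parameter -/
theorem sev_param [ProperSpace E] {Ω : Set E} (hΩ : IsOpen Ω) {a b : ℝ} {f : E → ℝ → ℂ}
    (hc : ContinuousOn (fun p : E × ℝ => f p.1 p.2) (Ω ×ˢ uIcc a b))
    (hd : ∀ θ ∈ uIcc a b, DifferentiableOn ℂ (fun y => f y θ) Ω) {x : E} (hx : x ∈ Ω) :
    ContinuousOn (fun θ => fderiv ℂ (fun y => f y θ) x) (uIcc a b) ∧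
    HasFDerivAt (fun y => ∫ θ in a..b, f y θ) (∫ θ in a..b, fderiv ℂ (fun y => f y θ) x) x := by
  obtain ⟨R, hR, hsub⟩ := Metric.nhds_basis_closedBall.mem_iff.1 (hΩ.mem_nhds hx)
  obtain ⟨ρ, hρ⟩ : ∃ ρ : ℝ, ρ = R / 2 := ⟨_, rfl⟩
  have hρ0 : 0 < ρ := by rw [hρ]; positivity
  have hR2 : R = 2 * ρ := by rw [hρ]; ring
  have hK : IsCompact (closedBall x R ×ˢ uIcc a b) := (isCompact_closedBall x R).prod isCompact_uIcc
  have hcK : ContinuousOn (fun p : E × ℝ => f p.1 p.2) (closedBall x R ×ˢ uIcc a b) :=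
    hc.mono (Set.prod_mono hsub le_rfl)
  obtain ⟨M, hM⟩ := hK.exists_bound_of_continuousOn hcK
  have hcb : ∀ y ∈ closedBall x ρ, closedBall y ρ ⊆ closedBall x R := by
    intro y hy
    apply closedBall_subset_closedBall'
    rw [mem_closedBall] at hy
    linarith
  have hθc : ∀ y ∈ Ω, ContinuousOn (fun θ => f y θ) (uIcc a b) := by
    intro y hy
    exact hc.comp (f := fun θ : ℝ => (y, θ)) (by fun_prop) fun θ hθ => ⟨hy, hθ⟩
  have hcont : ContinuousOn (fun θ => fderiv ℂ (fun y => f y θ) x) (uIcc a b) := by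
    have huc := hK.uniformContinuousOn_of_continuous hcK
    rw [Metric.uniformContinuousOn_iff] at huc
    rw [Metric.continuousOn_iff]
    intro θ hθ ε hε
    obtain ⟨δ, hδ, hδ'⟩ := huc (ε * ρ / 2) (by positivity)
    refine ⟨δ, hδ, fun θ' hθ' hdist => ?_⟩
    have h1 : ∀ y ∈ closedBall x ρ, ‖f y θ' - f y θ‖ ≤ ε * ρ / 2 := by
      intro y hy
      have hyR : y ∈ closedBall x R := closedBall_subset_closedBall (by linarith) hy
      have := hδ' (y, θ') ⟨hyR, hθ'⟩ (y, θ) ⟨hyR, hθ⟩ (by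
        rw [Prod.dist_eq, dist_self]
        exact max_lt hδ hdist)
      rw [dist_eq_norm] at this
      exact this.le
    have h2 := sev_bound hΩ ((hd θ' hθ').sub (hd θ hθ)) hρ0
      ((closedBall_subset_closedBall (by linarith)).trans hsub) h1
    have h3 : fderiv ℂ ((fun y => f y θ') - fun y => f y θ) x =
        fderiv ℂ (fun y => f y θ') x - fderiv ℂ (fun y => f y θ) x :=
      fderiv_sub ((hd θ' hθ').differentiableAt (hΩ.mem_nhds hx))
        ((hd θ hθ).differentiableAt (hΩ.mem_nhds hx))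
    have h4 : ‖fderiv ℂ (fun y => f y θ') x - fderiv ℂ (fun y => f y θ) x‖ ≤ ε * ρ / 2 / ρ := by
      rw [← h3]; exact h2
    rw [dist_eq_norm]
    refine h4.trans_lt ?_
    have : ε * ρ / 2 / ρ = ε / 2 := by field_simp
    rw [this]; linarith
  refine ⟨hcont, ?_⟩
  refine (intervalIntegral.hasFDerivAt_integral_of_dominated_of_fderiv_le
    (F := f) (F' := fun y θ => fderiv ℂ (fun y => f y θ) y) (bound := fun _ => M / ρ)
    (s := closedBall x ρ) (closedBall_mem_nhds x hρ0) ?_ ?_ ?_ ?_ ?_ ?_)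
  · filter_upwards [hΩ.mem_nhds hx] with y hy
    exact ((hθc y hy).mono uIoc_subset_uIcc).aestronglyMeasurable measurableSet_uIoc
  · exact (hθc x hx).intervalIntegrable
  · exact (hcont.mono uIoc_subset_uIcc).aestronglyMeasurable measurableSet_uIoc
  · refine Eventually.of_forall fun θ hθ y hy => ?_
    have hθ' := uIoc_subset_uIcc hθ
    exact sev_bound hΩ (hd θ hθ') hρ0 ((hcb y hy).trans hsub)
      fun z hz => hM (z, θ) ⟨hcb y hy hz, hθ'⟩
  · exact intervalIntegrable_const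
  · refine Eventually.of_forall fun θ hθ y hy => ?_
    have hθ' := uIoc_subset_uIcc hθ
    exact ((hd θ hθ').differentiableAt (hΩ.mem_nhds (hsub (hcb y hy
      (mem_closedBall_self hρ0.le))))).hasFDerivAt

/-- integrals of functions depending holomorphically on a parameter: differentiability -/
theorem sev_param_differentiableOn [ProperSpace E] {Ω : Set E} (hΩ : IsOpen Ω) {a b : ℝ}
    {f : E → ℝ → ℂ} (hc : ContinuousOn (fun p : E × ℝ => f p.1 p.2) (Ω ×ˢ uIcc a b))
    (hd : ∀ θ ∈ uIcc a b, DifferentiableOn ℂ (fun y => f y θ) Ω) :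
    DifferentiableOn ℂ (fun y => ∫ θ in a..b, f y θ) Ω :=
  fun _ hx => (sev_param hΩ hc hd hx).2.differentiableAt.differentiableWithinAt

/-- directional derivatives of holomorphic functions are holomorphic -/
theorem sev_fderiv_apply [ProperSpace E] {f : E → ℂ} {Ω : Set E} (hΩ : IsOpen Ω)
    (hf : DifferentiableOn ℂ f Ω) (v : E) : DifferentiableOn ℂ (fun y => fderiv ℂ f y v) Ω := by
  intro x hx
  refine DifferentiableAt.differentiableWithinAt ?_
  obtain ⟨R, hR, hsub⟩ := Metric.nhds_basis_closedBall.mem_iff.1 (hΩ.mem_nhds hx)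
  obtain ⟨ρ, hρ⟩ : ∃ ρ : ℝ, ρ = R / 2 := ⟨_, rfl⟩
  have hρ0 : 0 < ρ := by rw [hρ]; positivity
  have hR2 : R = 2 * ρ := by rw [hρ]; ring
  obtain ⟨δ, hδ⟩ : ∃ δ : ℝ, δ = ρ / (‖v‖ + 1) := ⟨_, rfl⟩
  have hδ0 : 0 < δ := by rw [hδ]; positivity
  have hδv : δ * ‖v‖ ≤ ρ := by
    rw [hδ, div_mul_eq_mul_div, div_le_iff₀ (by positivity)]
    nlinarith [norm_nonneg v]
  have hmem : ∀ y ∈ ball x ρ, ∀ t : ℂ, ‖t‖ ≤ δ → y + t • v ∈ Ω := by
    intro y hy t ht
    apply hsub
    rw [mem_ball, dist_eq_norm] at hy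
    rw [mem_closedBall, dist_eq_norm]
    have h1 : ‖t • v‖ ≤ ρ := by
      rw [norm_smul]
      exact (mul_le_mul_of_nonneg_right ht (norm_nonneg v)).trans hδv
    calc ‖y + t • v - x‖ = ‖(y - x) + t • v‖ := by congr 1; abel
      _ ≤ ‖y - x‖ + ‖t • v‖ := norm_add_le _ _
      _ ≤ R := by linarith
  have hform : ∀ y ∈ ball x ρ, fderiv ℂ f y v = (2 * (Real.pi : ℂ) * Complex.I)⁻¹ *
      ∫ θ in (0 : ℝ)..2 * Real.pi, deriv (circleMap 0 δ) θ •
        ((1 / (circleMap 0 δ θ - 0) ^ 2) • f (y + circleMap 0 δ θ • v)) := by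
    intro y hy
    have h1 : DiffContOnCl ℂ (fun t : ℂ => f (y + t • v)) (ball 0 δ) := by
      apply DifferentiableOn.diffContOnCl
      intro t ht
      rw [closure_ball _ hδ0.ne'] at ht
      exact (sev_line hΩ hf y v t (hmem y hy t (by simpa using ht))).differentiableAt.differentiableWithinAt
    have h2 := h1.deriv_eq_smul_circleIntegral hδ0
    have h3 : deriv (fun t : ℂ => f (y + t • v)) 0 = fderiv ℂ f y v := by
      have := (sev_line hΩ hf y v 0 (hmem y hy 0 (by simpa using hδ0.le))).deriv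
      simpa using this
    rw [h3, smul_eq_mul] at h2
    rw [eq_inv_mul_iff_mul_eq₀ Complex.two_pi_I_ne_zero, ← h2]
    rfl
  have hnz : ∀ θ : ℝ, circleMap 0 δ θ - 0 ≠ 0 := by
    intro θ
    rw [sub_zero]
    exact circleMap_ne_center hδ0.ne'
  have hdiff : DifferentiableOn ℂ (fun y => ∫ θ in (0 : ℝ)..2 * Real.pi,
      deriv (circleMap 0 δ) θ • ((1 / (circleMap 0 δ θ - 0) ^ 2) •
        f (y + circleMap 0 δ θ • v))) (ball x ρ) := by
    refine sev_param_differentiableOn isOpen_ball ?_ ?_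
    · have h1 : ContinuousOn (fun p : E × ℝ => f (p.1 + circleMap 0 δ p.2 • v))
          (ball x ρ ×ˢ uIcc 0 (2 * Real.pi)) := by
        refine hf.continuousOn.comp (f := fun p : E × ℝ => p.1 + circleMap 0 δ p.2 • v) ?_ ?_
        · have : Continuous (fun p : E × ℝ => circleMap 0 δ p.2) :=
            (continuous_circleMap 0 δ).comp continuous_snd
          exact (continuous_fst.add (this.smul continuous_const)).continuousOn
        · intro p hp
          exact hmem p.1 hp.1 _ (by simp [abs_of_pos hδ0])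
      have h2 : Continuous (fun p : E × ℝ => deriv (circleMap 0 δ) p.2) := by
        have : Continuous (fun θ : ℝ => deriv (circleMap 0 δ) θ) := by
          have h3 : (fun θ : ℝ => deriv (circleMap 0 δ) θ) = fun θ => circleMap 0 δ θ * Complex.I := by
            ext θ; simp [deriv_circleMap]
          rw [h3]
          exact (continuous_circleMap 0 δ).mul continuous_const
        exact this.comp continuous_snd
      have h4 : Continuous (fun p : E × ℝ => 1 / (circleMap 0 δ p.2 - 0) ^ 2) := by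
        have h5 : Continuous (fun p : E × ℝ => circleMap 0 δ p.2 - 0) :=
          ((continuous_circleMap 0 δ).comp continuous_snd).sub continuous_const
        exact continuous_const.div (h5.pow 2) fun p => pow_ne_zero 2 (hnz p.2)
      exact h2.continuousOn.smul (h4.continuousOn.smul h1)
    · intro θ hθ y hy
      refine DifferentiableAt.differentiableWithinAt ?_
      simp only [smul_eq_mul]
      refine DifferentiableAt.const_mul (DifferentiableAt.const_mul ?_ _) _
      have h1 : DifferentiableAt ℂ f (y + circleMap 0 δ θ • v) :=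
        hf.differentiableAt (hΩ.mem_nhds (hmem y hy _ (by simp [abs_of_pos hδ0])))
      exact h1.comp y (differentiableAt_id.add (differentiableAt_const _))
  have h9 : DifferentiableAt ℂ (fun y => (2 * (Real.pi : ℂ) * Complex.I)⁻¹ *
      ∫ θ in (0 : ℝ)..2 * Real.pi, deriv (circleMap 0 δ) θ •
        ((1 / (circleMap 0 δ θ - 0) ^ 2) • f (y + circleMap 0 δ θ • v))) x :=
    (hdiff.differentiableAt (ball_mem_nhds x hρ0)).const_mul _
  refine h9.congr_of_eventuallyEq ?_
  filter_upwards [ball_mem_nhds x hρ0] with y hy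
  exact hform y hy

/-- a holomorphic function on an open subset of a finite dimensional space is smooth -/
theorem sev_contDiffOn [FiniteDimensional ℂ E] {Ω : Set E} (hΩ : IsOpen Ω) (n : ℕ) :
    ∀ {f : E → ℂ}, DifferentiableOn ℂ f Ω → ContDiffOn ℂ n f Ω := by
  have : ProperSpace E := FiniteDimensional.proper ℂ E
  induction n with
  | zero =>
    intro f hf
    have : ContDiffOn ℂ 0 f Ω := contDiffOn_zero.2 hf.continuousOn
    simpa using this
  | succ n ih =>
    intro f hf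
    have h1 : ContDiffOn ℂ ((n : WithTop ℕ∞) + 1) f Ω := by
      rw [contDiffOn_succ_iff_fderiv_of_isOpen hΩ]
      refine ⟨hf, by simp, ?_⟩
      rw [contDiffOn_clm_apply]
      intro v
      exact ih (sev_fderiv_apply hΩ hf v)
    simpa using h1

theorem sev_differentiableOn_fderiv [FiniteDimensional ℂ E] {Ω : Set E} (hΩ : IsOpen Ω)
    {f : E → ℂ} (hf : DifferentiableOn ℂ f Ω) : DifferentiableOn ℂ (fderiv ℂ f) Ω := by
  have h1 := sev_contDiffOn hΩ 2 hf
  have h2 : ContDiffOn ℂ ((1 : WithTop ℕ∞) + 1) f Ω := by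
    have : ((1 : WithTop ℕ∞) + 1) = ((2 : ℕ) : WithTop ℕ∞) := by norm_num
    rw [this]; exact h1
  rw [contDiffOn_succ_iff_fderiv_of_isOpen hΩ] at h2
  exact h2.2.2.differentiableOn (by simp)

end Pool.Agent.Helper38.DO
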