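import Pool.Agent.Helper67.DO.StmtsE1
import Pool.Agent.Helper38.DO.Sev

/-!
# Module E1: `∂ : O_{q+1}(U') → O_q(U)` with the Cauchy bound

Main tool: `e1_dd_eq`: `∂F(z) = - ∑ i, ∂_t F(t, z)` at `t = z_i`.
-/

namespace Pool.Agent.Helper67.DO

open Set Filter Topology Metric

theorem e1_isOpen_PU (q : ℕ) {U : Set ℂ} (hU : IsOpen U) : IsOpen (PU q U) := by
  have : PU q U = Set.pi univ (fun _ : Fin q => U) := by
    ext z; simp [PU]
  rw [this]
  exact isOpen_set_pi finite_univ fun _ _ => hU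

theorem e1_cons_mem {q : ℕ} {U : Set ℂ} {t : ℂ} {z : Fin q → ℂ} (ht : t ∈ U) (hz : z ∈ PU q U) :
    (Fin.cons t z : Fin (q + 1) → ℂ) ∈ PU (q + 1) U := by
  intro i
  refine Fin.cases ?_ (fun j => ?_) i
  · simpa using ht
  · simpa using hz j

theorem e1_insertNth_mem {q : ℕ} {U : Set ℂ} {t : ℂ} {z : Fin q → ℂ} (k : Fin (q + 1)) (ht : t ∈ U)
    (hz : z ∈ PU q U) : (k.insertNth t z : Fin (q + 1) → ℂ) ∈ PU (q + 1) U := by
  intro i
  refine Fin.succAboveCases k ?_ (fun j => ?_) i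
  · simpa using ht
  · simpa using hz j

/-- `F(.., t at place k, ..) = (-1)^k F(t, ..)` -/
theorem e1_cons_insertNth {q : ℕ} {U : Set ℂ} {F : (Fin (q + 1) → ℂ) → ℂ} (hF : BO (q + 1) U F)
    {t : ℂ} {z : Fin q → ℂ} (ht : t ∈ U) (hz : z ∈ PU q U) (k : Fin (q + 1)) :
    F (k.insertNth t z) = (-1 : ℂ) ^ (k : ℕ) * F (Fin.cons t z : Fin (q + 1) → ℂ) := by
  have h1 := hF.alt (Fin.cons t z : Fin (q + 1) → ℂ) (e1_cons_mem ht hz) k.cycleRange
  have h2 : (fun i => (Fin.cons t z : Fin (q + 1) → ℂ) (k.cycleRange i)) =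
      (k.insertNth t z : Fin (q + 1) → ℂ) := by
    ext j
    exact Fin.cons_apply_cycleRange t z k j
  rw [h2, Fin.sign_cycleRange] at h1
  rw [h1]
  push_cast
  ring

/-- the derivative of `F(t, z)` in `t` as a value of the Fréchet derivative -/
theorem e1_hasDerivAt_cons {q : ℕ} {U : Set ℂ} (hU : IsOpen U) {F : (Fin (q + 1) → ℂ) → ℂ}
    (hF : DifferentiableOn ℂ F (PU (q + 1) U)) {t : ℂ} {z : Fin q → ℂ} (ht : t ∈ U)
    (hz : z ∈ PU q U) :
    HasDerivAt (fun t : ℂ => F (Fin.cons t z : Fin (q + 1) → ℂ))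
      (fderiv ℂ F (Fin.cons t z : Fin (q + 1) → ℂ) (Pi.single 0 1)) t := by
  have h1 : HasFDerivAt F (fderiv ℂ F (Fin.cons t z : Fin (q + 1) → ℂ))
      (Fin.cons t z : Fin (q + 1) → ℂ) :=
    (hF.differentiableAt ((e1_isOpen_PU (q + 1) hU).mem_nhds (e1_cons_mem ht hz))).hasFDerivAt
  have h2 : HasDerivAt (fun t : ℂ => (Fin.cons t z : Fin (q + 1) → ℂ)) (Pi.single 0 1) t := by
    rw [hasDerivAt_pi]
    intro j
    refine Fin.cases ?_ (fun i => ?_) j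
    · simpa using! hasDerivAt_id' t
    · simpa using! hasDerivAt_const t (z i)
  exact h1.comp_hasDerivAt t h2

/-- `∂F(z) = - ∑ i, ∂_t F(t, z)` at `t = z_i` -/
theorem e1_dd_eq {q : ℕ} {U : Set ℂ} (hU : IsOpen U) {F : (Fin (q + 1) → ℂ) → ℂ}
    (hF : BO (q + 1) U F) {z : Fin q → ℂ} (hz : z ∈ PU q U) :
    dd q F z = - ∑ i : Fin q, deriv (fun t : ℂ => F (Fin.cons t z : Fin (q + 1) → ℂ)) (z i) := by
  unfold dd
  rw [← Finset.sum_neg_distrib]
  refine Finset.sum_congr rfl fun i _ => ?_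
  have h1 : (fun t : ℂ => F (i.succ.insertNth t z)) =ᶠ[𝓝 (z i)]
      fun t => (-1 : ℂ) ^ ((i : ℕ) + 1) * F (Fin.cons t z : Fin (q + 1) → ℂ) := by
    filter_upwards [hU.mem_nhds (hz i)] with t ht
    have := e1_cons_insertNth hF ht hz i.succ
    simpa using this
  rw [h1.deriv_eq, deriv_const_mul_field]
  rw [← mul_assoc, ← pow_add]
  have : (-1 : ℂ) ^ ((i : ℕ) + ((i : ℕ) + 1)) = -1 := by
    rw [← add_assoc, pow_succ, ← two_mul, pow_mul]; simp
  rw [this]; ring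

/-- translating the first variable by one -/
theorem e1_per_cons {q : ℕ} {U : Set ℂ} {F : (Fin (q + 1) → ℂ) → ℂ} (hF : BO (q + 1) U F)
    {t : ℂ} {z : Fin q → ℂ} (ht : t ∈ U) (hz : z ∈ PU q U) :
    F (Fin.cons (t + 1) z : Fin (q + 1) → ℂ) = F (Fin.cons t z : Fin (q + 1) → ℂ) := by
  have h1 := hF.per (Fin.cons t z : Fin (q + 1) → ℂ) (e1_cons_mem ht hz) 0
  rwa [Fin.cons_zero, Fin.update_cons_zero] at h1

theorem e1_per_cons_succ {q : ℕ} {U : Set ℂ} {F : (Fin (q + 1) → ℂ) → ℂ} (hF : BO (q + 1) U F)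
    {t : ℂ} {z : Fin q → ℂ} (ht : t ∈ U) (hz : z ∈ PU q U) (j : Fin q) :
    F (Fin.cons t (Function.update z j (z j + 1)) : Fin (q + 1) → ℂ) =
      F (Fin.cons t z : Fin (q + 1) → ℂ) := by
  have h1 := hF.per (Fin.cons t z : Fin (q + 1) → ℂ) (e1_cons_mem ht hz) j.succ
  rwa [Fin.cons_succ, ← Fin.cons_update] at h1

theorem e1_alt_cons {q : ℕ} {U : Set ℂ} {F : (Fin (q + 1) → ℂ) → ℂ} (hF : BO (q + 1) U F)
    {t : ℂ} {z : Fin q → ℂ} (ht : t ∈ U) (hz : z ∈ PU q U) (σ : Equiv.Perm (Fin q)) :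
    F (Fin.cons t (fun i => z (σ i)) : Fin (q + 1) → ℂ) =
      ((Equiv.Perm.sign σ : ℤ) : ℂ) * F (Fin.cons t z : Fin (q + 1) → ℂ) := by
  have h1 := hF.alt (Fin.cons t z : Fin (q + 1) → ℂ) (e1_cons_mem ht hz)
    (Equiv.Perm.decomposeFin.symm (0, σ))
  have h2 : (fun i => (Fin.cons t z : Fin (q + 1) → ℂ) (Equiv.Perm.decomposeFin.symm (0, σ) i)) =
      (Fin.cons t (fun i => z (σ i)) : Fin (q + 1) → ℂ) := by
    ext j
    refine Fin.cases ?_ (fun i => ?_) j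
    · simp
    · simp
  rw [h2, Equiv.Perm.decomposeFin.symm_sign] at h1
  simpa using h1

/-- Cauchy estimate in the first variable -/
theorem e1_deriv_bound {q : ℕ} {U : Set ℂ} (hU : IsOpen U) {F : (Fin (q + 1) → ℂ) → ℂ}
    (hF : DifferentiableOn ℂ F (PU (q + 1) U)) {M r : ℝ} (hr : 0 < r)
    (hM : ∀ z ∈ PU (q + 1) U, ‖F z‖ ≤ M) {t : ℂ} {z : Fin q → ℂ} (ht : ball t r ⊆ U)
    (hz : z ∈ PU q U) :
    ‖deriv (fun t : ℂ => F (Fin.cons t z : Fin (q + 1) → ℂ)) t‖ ≤ M / r := by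
  have htU : t ∈ U := ht (mem_ball_self hr)
  have hM0 : 0 ≤ M := (norm_nonneg _).trans (hM _ (e1_cons_mem htU hz))
  have h1 : ∀ ρ : ℝ, 0 < ρ → ρ < r →
      ‖deriv (fun t : ℂ => F (Fin.cons t z : Fin (q + 1) → ℂ)) t‖ ≤ M / ρ := by
    intro ρ hρ hρr
    have hsub : closedBall t ρ ⊆ U := (closedBall_subset_ball hρr).trans ht
    refine Complex.norm_deriv_le_of_forall_mem_sphere_norm_le hρ ?_ ?_
    · apply DifferentiableOn.diffContOnCl
      intro w hw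
      rw [closure_ball _ hρ.ne'] at hw
      exact (e1_hasDerivAt_cons hU hF (hsub hw) hz).differentiableAt.differentiableWithinAt
    · intro w hw
      exact hM _ (e1_cons_mem (hsub (sphere_subset_closedBall hw)) hz)
  rw [le_div_iff₀ hr]
  by_contra hcon
  rw [not_le] at hcon
  set d := ‖deriv (fun t : ℂ => F (Fin.cons t z : Fin (q + 1) → ℂ)) t‖ with hd
  have hd0 : 0 < d := by
    rcases (norm_nonneg (deriv (fun t : ℂ => F (Fin.cons t z : Fin (q + 1) → ℂ)) t)).lt_or_eq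
      with h | h
    · exact h
    · rw [← hd] at h
      rw [← h, zero_mul] at hcon
      linarith
  have h2 : M / d < r := by rw [div_lt_iff₀ hd0, mul_comm]; exact hcon
  obtain ⟨ρ, hρ1, hρ2⟩ := exists_between (max_lt h2 hr)
  have hρ0 : 0 < ρ := (le_max_right _ _).trans_lt hρ1
  have h3 := h1 ρ hρ0 hρ2
  rw [le_div_iff₀ hρ0] at h3
  have h4 : M / d < ρ := (le_max_left _ _).trans_lt hρ1
  rw [div_lt_iff₀ hd0] at h4
  linarith

/-- derivatives at the diagonal are holomorphic in `z` -/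
theorem e1_hol_diag {q : ℕ} {U : Set ℂ} (hU : IsOpen U) {F : (Fin (q + 1) → ℂ) → ℂ}
    (hF : DifferentiableOn ℂ F (PU (q + 1) U)) (i : Fin q) :
    DifferentiableOn ℂ (fun z : Fin q → ℂ =>
      deriv (fun t : ℂ => F (Fin.cons t z : Fin (q + 1) → ℂ)) (z i)) (PU q U) := by
  have h1 : DifferentiableOn ℂ (fun w => fderiv ℂ F w (Pi.single 0 1)) (PU (q + 1) U) :=
    Pool.Agent.Helper38.DO.sev_fderiv_apply (e1_isOpen_PU (q + 1) hU) hF _
  have h2 : Differentiable ℂ (fun z : Fin q → ℂ => (Fin.cons (z i) z : Fin (q + 1) → ℂ)) := by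
    rw [differentiable_pi]
    intro j
    refine Fin.cases ?_ (fun k => ?_) j
    · simpa using differentiable_apply i
    · simpa using differentiable_apply k
  have h3 : DifferentiableOn ℂ (fun z : Fin q → ℂ =>
      fderiv ℂ F (Fin.cons (z i) z : Fin (q + 1) → ℂ) (Pi.single 0 1)) (PU q U) :=
    h1.comp h2.differentiableOn fun z hz => e1_cons_mem (hz i) hz
  refine h3.congr fun z hz => ?_
  exact (e1_hasDerivAt_cons hU hF (hz i) hz).deriv

theorem e1_mono {q : ℕ} {U U' : Set ℂ} (h : U ⊆ U') : PU q U ⊆ PU q U' := fun _ hz i => h (hz i)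

/-- `∂F` is holomorphic, periodic and alternating on `U'^q` -/
theorem e1_hol {q : ℕ} {U : Set ℂ} (hU : IsOpen U) {F : (Fin (q + 1) → ℂ) → ℂ}
    (hF : BO (q + 1) U F) : DifferentiableOn ℂ (dd q F) (PU q U) := by
  have h1 : DifferentiableOn ℂ (fun z : Fin q → ℂ =>
      - ∑ i : Fin q, deriv (fun t : ℂ => F (Fin.cons t z : Fin (q + 1) → ℂ)) (z i)) (PU q U) := by
    refine DifferentiableOn.fun_neg (DifferentiableOn.fun_sum fun i _ => ?_)
    exact e1_hol_diag hU hF.hol i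
  exact h1.congr fun z hz => e1_dd_eq hU hF hz

theorem e1_per {q : ℕ} {U : Set ℂ} (hU : IsOpen U) (hP : Per U) {F : (Fin (q + 1) → ℂ) → ℂ}
    (hF : BO (q + 1) U F) {z : Fin q → ℂ} (hz : z ∈ PU q U) (j : Fin q) :
    dd q F (Function.update z j (z j + 1)) = dd q F z := by
  have hz' : Function.update z j (z j + 1) ∈ PU q U := by
    intro i
    by_cases h : i = j
    · subst h
      rw [Function.update_self]
      exact (hP _).1 (hz i)
    · rw [Function.update_of_ne h]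
      exact hz i
  rw [e1_dd_eq hU hF hz, e1_dd_eq hU hF hz']
  congr 1
  refine Finset.sum_congr rfl fun i _ => ?_
  have h1 : ∀ w ∈ U, (fun t : ℂ => F (Fin.cons t (Function.update z j (z j + 1)) :
      Fin (q + 1) → ℂ)) =ᶠ[𝓝 w] fun t => F (Fin.cons t z : Fin (q + 1) → ℂ) := by
    intro w hw
    filter_upwards [hU.mem_nhds hw] with t ht
    exact e1_per_cons_succ hF ht hz j
  rw [(h1 _ (hz' i)).deriv_eq]
  by_cases h : i = j
  · subst h
    rw [Function.update_self]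
    rw [← deriv_comp_add_const]
    apply Filter.EventuallyEq.deriv_eq
    filter_upwards [hU.mem_nhds (hz i)] with t ht
    exact e1_per_cons hF ht hz
  · rw [Function.update_of_ne h]

theorem e1_alt {q : ℕ} {U : Set ℂ} (hU : IsOpen U) {F : (Fin (q + 1) → ℂ) → ℂ}
    (hF : BO (q + 1) U F) {z : Fin q → ℂ} (hz : z ∈ PU q U) (σ : Equiv.Perm (Fin q)) :
    dd q F (fun i => z (σ i)) = ((Equiv.Perm.sign σ : ℤ) : ℂ) * dd q F z := by
  have hz' : (fun i => z (σ i)) ∈ PU q U := fun i => hz (σ i)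
  rw [e1_dd_eq hU hF hz, e1_dd_eq hU hF hz', mul_neg, Finset.mul_sum]
  congr 1
  rw [← Equiv.sum_comp σ (fun i => ((Equiv.Perm.sign σ : ℤ) : ℂ) *
    deriv (fun t : ℂ => F (Fin.cons t z : Fin (q + 1) → ℂ)) (z i))]
  refine Finset.sum_congr rfl fun i _ => ?_
  have h1 : (fun t : ℂ => F (Fin.cons t (fun i => z (σ i)) : Fin (q + 1) → ℂ))
      =ᶠ[𝓝 (z (σ i))] fun t => ((Equiv.Perm.sign σ : ℤ) : ℂ) *
        F (Fin.cons t z : Fin (q + 1) → ℂ) := by
    filter_upwards [hU.mem_nhds (hz (σ i))] with t ht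
    exact e1_alt_cons hF ht hz σ
  rw [h1.deriv_eq, deriv_const_mul_field]

theorem e1_bound {q : ℕ} {U U' : Set ℂ} {r : ℝ} (hU' : IsOpen U') (hr : 0 < r)
    (hb : ∀ z ∈ U, ball z r ⊆ U') {F : (Fin (q + 1) → ℂ) → ℂ} (hF : BO (q + 1) U' F) {M : ℝ}
    (hM : ∀ z ∈ PU (q + 1) U', ‖F z‖ ≤ M) {z : Fin q → ℂ} (hz : z ∈ PU q U) :
    ‖dd q F z‖ ≤ q * M / r := by
  have hUU : U ⊆ U' := fun w hw => hb w hw (mem_ball_self hr)
  have hz' : z ∈ PU q U' := e1_mono hUU hz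
  rw [e1_dd_eq hU' hF hz', norm_neg]
  calc ‖∑ i : Fin q, deriv (fun t : ℂ => F (Fin.cons t z : Fin (q + 1) → ℂ)) (z i)‖
      ≤ ∑ i : Fin q, ‖deriv (fun t : ℂ => F (Fin.cons t z : Fin (q + 1) → ℂ)) (z i)‖ :=
        norm_sum_le _ _
    _ ≤ ∑ _i : Fin q, M / r :=
        Finset.sum_le_sum fun i _ => e1_deriv_bound hU' hF.hol hr hM (hb _ (hz i)) hz'
    _ = q * M / r := by simp; ring

theorem st_E1 : ST_E1 := by
  intro q U U' r hU hU' hP hr hb F hF
  have hUU : U ⊆ U' := fun w hw => hb w hw (mem_ball_self hr)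
  refine ⟨⟨(e1_hol hU' hF).mono (e1_mono hUU), fun z hz i => e1_per hU' hP hF (e1_mono hUU hz) i,
    fun z hz σ => e1_alt hU' hF (e1_mono hUU hz) σ, ?_⟩, fun M hM z hz => e1_bound hU' hr hb hF hM hz⟩
  obtain ⟨C, hC⟩ := hF.bdd
  exact ⟨q * C / r, fun z hz => e1_bound hU' hr hb hF hC hz⟩

end Pool.Agent.Helper67.DO
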